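import Pool.Agent.Run7.h426.DOM.Iface
import Pool.Agent.Run7.h175.TB

/-!
Project DOM: pieces CM2, CM, CUB.
-/

set_option autoImplicit false

namespace Run7.h78.DOM

open Finset Run7.h426.DOM

/-- graph of intersecting edges -/
def IG (E : ℕ → Finset ℕ) : SimpleGraph ℕ where
  Adj i j := i ≠ j ∧ ∃ v, v ∈ E i ∧ v ∈ E j
  symm := ⟨fun _ _ h => ⟨h.1.symm, h.2.imp fun _ hv => ⟨hv.2, hv.1⟩⟩⟩
  loopless := ⟨fun _ h => h.1 rfl⟩

/-- valid pairs -/
def Val (I : Finset ℕ) (E : ℕ → Finset ℕ) (A : Finset ℕ) (F : Finset (Finset ℕ)) : Prop :=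
  A ⊆ I ∧ (∀ O ∈ F, Odd O.card) ∧ (∀ O ∈ F, ∀ O' ∈ F, O ≠ O' → Disjoint O O') ∧
    (∀ O ∈ F, O ⊆ I \ A) ∧ (∀ O ∈ F, ∀ x ∈ O, ∀ y ∈ I, (IG E).Adj x y → y ∈ O ∨ y ∈ A)

theorem exists_max (I : Finset ℕ) (E : ℕ → Finset ℕ) :
    ∃ A F, Val I E A F ∧ A.card ≤ F.card ∧
      ∀ A' F', Val I E A' F' → F'.card + A.card ≤ A'.card + F.card := by
  classical
  set P : Finset (Finset ℕ × Finset (Finset ℕ)) :=
    (I.powerset ×ˢ I.powerset.powerset).filter (fun p => Val I E p.1 p.2) with hP
  have hmem : ∀ A F, Val I E A F → (A, F) ∈ P := by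
    intro A F h
    rw [hP, mem_filter, mem_product, mem_powerset, mem_powerset]
    refine ⟨⟨h.1, fun O hO => ?_⟩, h⟩
    rw [mem_powerset]
    exact (h.2.2.2.1 O hO).trans sdiff_subset
  have h0 : Val I E ∅ ∅ := ⟨empty_subset _, by simp, by simp, by simp, by simp⟩
  obtain ⟨⟨A, F⟩, hAF, hmax⟩ := P.exists_max_image (fun p => p.2.card + (I.card - p.1.card))
    ⟨_, hmem _ _ h0⟩
  have hV : Val I E A F := (mem_filter.mp hAF).2
  have hA : A.card ≤ I.card := card_le_card hV.1
  refine ⟨A, F, hV, ?_, ?_⟩
  · have := hmax _ (hmem _ _ h0)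
    simp only [card_empty] at this
    omega
  · intro A' F' hV'
    have h1 := hmax _ (hmem _ _ hV')
    have hA' : A'.card ≤ I.card := card_le_card hV'.1
    simp only at h1
    omega

/-- vertices of degree two -/
def DD (I : Finset ℕ) (E : ℕ → Finset ℕ) : Finset ℕ :=
  (U I E).filter (fun v => (I.filter (fun i => v ∈ E i)).card = 2)

/-- vertices of degree two with both edges in `S` -/
def DS (I : Finset ℕ) (E : ℕ → Finset ℕ) (S : Finset ℕ) : Finset ℕ :=
  (DD I E).filter (fun v => ∀ i ∈ I, v ∈ E i → i ∈ S)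

theorem DS_deg {I : Finset ℕ} {E : ℕ → Finset ℕ} {S : Finset ℕ} (hS : S ⊆ I) {v : ℕ}
    (hv : v ∈ DS I E S) : (S.filter (fun i => v ∈ E i)).card = 2 := by
  have h1 := mem_filter.mp hv
  have h2 := (mem_filter.mp h1.1).2
  rw [← h2]
  congr 1
  ext i
  simp only [mem_filter]
  exact ⟨fun h => ⟨hS h.1, h.2⟩, fun h => ⟨h1.2 i h.1 h.2, h.2⟩⟩

theorem DS_card {I : Finset ℕ} {E : ℕ → Finset ℕ} {r : ℕ} (hr : ∀ i ∈ I, (E i).card = r)
    {S : Finset ℕ} (hS : S ⊆ I) : 2 * (DS I E S).card ≤ r * S.card := by
  have h1 : ∑ v ∈ DS I E S, (S.filter (fun i => v ∈ E i)).card = 2 * (DS I E S).card := by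
    rw [sum_congr rfl (fun v hv => DS_deg hS hv), sum_const, smul_eq_mul, mul_comm]
  have h2 := sum_card_bipartiteAbove_eq_sum_card_bipartiteBelow (s := S) (t := DS I E S)
    (fun i v => v ∈ E i)
  have h3 : ∑ i ∈ S, ((DS I E S).bipartiteAbove (fun i v => v ∈ E i) i).card ≤ r * S.card := by
    calc ∑ i ∈ S, ((DS I E S).bipartiteAbove (fun i v => v ∈ E i) i).card
        ≤ ∑ i ∈ S, (E i).card := by
          apply sum_le_sum
          intro i _
          apply card_le_card
          intro v hv
          exact (mem_filter.mp hv).2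
      _ = r * S.card := by
          rw [sum_congr rfl (fun i hi => hr i (hS hi)), sum_const, smul_eq_mul, mul_comm]
  have h4 : ∑ v ∈ DS I E S, (S.filter (fun i => v ∈ E i)).card =
      ∑ b ∈ DS I E S, (S.bipartiteBelow (fun i v => v ∈ E i) b).card := rfl
  omega

theorem DS_small {I : Finset ℕ} {E : ℕ → Finset ℕ} {S : Finset ℕ} (hS : S ⊆ I)
    (h : S.card ≤ 1) : (DS I E S).card = 0 := by
  rw [card_eq_zero, eq_empty_iff_forall_notMem]
  intro v hv
  have h1 := DS_deg hS hv
  have h2 : (S.filter (fun i => v ∈ E i)).card ≤ S.card := card_filter_le _ _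
  omega

/-- the counting inequality -/
theorem count {r : ℕ} {I : Finset ℕ} {E : ℕ → Finset ℕ} (hr : ∀ i ∈ I, (E i).card = r)
    {A : Finset ℕ} {F : Finset (Finset ℕ)} (hV : Val I E A F)
    (Z : Finset ℕ) (hZ : Z = I \ (A ∪ F.biUnion id)) :
    2 * (DD I E).card ≤ (r + r / 2) * (2 * A.card + 2 * ∑ O ∈ F, O.card / 2 + Z.card) := by
  obtain ⟨hA, hodd, hdis, hsub, hcl⟩ := hV
  have hcover : DD I E ⊆ A.biUnion E ∪ (F.biUnion (DS I E) ∪ DS I E Z) := by
    intro v hv
    by_cases h : ∃ i ∈ A, v ∈ E i
    · obtain ⟨i, hi, hvi⟩ := h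
      exact mem_union_left _ (mem_biUnion.mpr ⟨i, hi, hvi⟩)
    · apply mem_union_right
      by_cases h2 : ∃ O ∈ F, ∃ i ∈ O, v ∈ E i
      · obtain ⟨O, hO, i, hi, hvi⟩ := h2
        apply mem_union_left
        rw [mem_biUnion]
        refine ⟨O, hO, mem_filter.mpr ⟨hv, fun j hj hvj => ?_⟩⟩
        by_cases hij : i = j
        · exact hij ▸ hi
        · rcases hcl O hO i hi j hj ⟨hij, v, hvi, hvj⟩ with h3 | h3
          · exact h3
          · exact absurd ⟨j, h3, hvj⟩ h
      · apply mem_union_right
        refine mem_filter.mpr ⟨hv, fun j hj hvj => ?_⟩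
        rw [hZ, mem_sdiff, mem_union, mem_biUnion]
        refine ⟨hj, ?_⟩
        rintro (h3 | ⟨O, hO, h3⟩)
        · exact h ⟨j, h3, hvj⟩
        · exact h2 ⟨O, hO, j, h3, hvj⟩
  have h1 : (DD I E).card ≤ (A.biUnion E).card +
      ((F.biUnion (DS I E)).card + (DS I E Z).card) :=
    (card_le_card hcover).trans ((card_union_le _ _).trans
      (Nat.add_le_add_left (card_union_le _ _) _))
  have h2 : (A.biUnion E).card ≤ r * A.card := by
    refine card_biUnion_le.trans ?_
    rw [sum_congr rfl (fun i hi => hr i (hA hi)), sum_const, smul_eq_mul, mul_comm]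
  have h3 : (F.biUnion (DS I E)).card ≤ (r + r / 2) * ∑ O ∈ F, O.card / 2 := by
    refine card_biUnion_le.trans ?_
    rw [mul_sum]
    apply sum_le_sum
    intro O hO
    have hOI : O ⊆ I := (hsub O hO).trans sdiff_subset
    obtain ⟨c, hc⟩ := hodd O hO
    have hc2 : O.card / 2 = c := by omega
    rw [hc2]
    rcases Nat.eq_zero_or_pos c with h0 | h0
    · rw [DS_small hOI (by omega)]
      exact Nat.zero_le _
    · have h4 := DS_card hr hOI
      rw [hc] at h4
      have h5 : r * (2 * c + 1) = 2 * (r * c) + r := by ring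
      rw [h5] at h4
      have h6 : (DS I E O).card ≤ r * c + r / 2 := by omega
      have h7 : r / 2 ≤ r / 2 * c := Nat.le_mul_of_pos_right _ h0
      have h8 : (r + r / 2) * c = r * c + r / 2 * c := by ring
      omega
  have h4 : 2 * (DS I E Z).card ≤ r * Z.card := DS_card hr (by rw [hZ]; exact sdiff_subset)
  have h5 : (r + r / 2) * (2 * A.card + 2 * ∑ O ∈ F, O.card / 2 + Z.card) =
      2 * (r * A.card) + 2 * (r / 2 * A.card) + 2 * ((r + r / 2) * ∑ O ∈ F, O.card / 2) +
        r * Z.card + r / 2 * Z.card := by ring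
  omega

theorem t_CM2 : S_CM2 := by
  intro r I E hr2 hr hdeg
  classical
  obtain ⟨A, F, hV, hAF, hmax⟩ := exists_max I E
  have hV' := hV
  obtain ⟨hA, hodd, hdis, hsub, hcl⟩ := hV'
  set Z := I \ (A ∪ F.biUnion id) with hZ
  set C := ∑ O ∈ F, O.card / 2 with hC
  have hFsum : (F.biUnion id).card = 2 * C + F.card := by
    have h0 : (F.biUnion id).card = ∑ O ∈ F, (id O).card :=
      card_biUnion (fun O hO O' hO' h => hdis O hO O' hO' h)
    rw [h0]
    have : ∀ O ∈ F, (id O).card = 2 * (O.card / 2) + 1 := by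
      intro O hO
      obtain ⟨c, hc⟩ := hodd O hO
      simp only [id]
      omega
    rw [sum_congr rfl this, sum_add_distrib, ← mul_sum]
    simp [hC]
  have hFI : F.biUnion id ⊆ I := by
    intro x hx
    obtain ⟨O, hO, hxO⟩ := mem_biUnion.mp hx
    exact (mem_sdiff.mp (hsub O hO hxO)).1
  have hAFd : Disjoint A (F.biUnion id) := by
    rw [disjoint_left]
    intro x hx hx2
    obtain ⟨O, hO, hxO⟩ := mem_biUnion.mp hx2
    exact (mem_sdiff.mp (hsub O hO hxO)).2 hx
  have hcardI : I.card = A.card + (2 * C + F.card) + Z.card := by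
    have h1 : (A ∪ F.biUnion id).card = A.card + (2 * C + F.card) := by
      rw [card_union_of_disjoint hAFd, hFsum]
    have h2 : (A ∪ F.biUnion id) ⊆ I := union_subset hA hFI
    have h3 := card_sdiff_add_card_eq_card h2
    rw [← hZ] at h3
    omega
  have hZeven : Even Z.card := by
    by_contra hne
    rw [Nat.not_even_iff_odd] at hne
    have hZF : Z ∉ F := by
      intro h
      obtain ⟨c, hc⟩ := hne
      have : Z.Nonempty := card_pos.mp (by omega)
      obtain ⟨x, hx⟩ := this
      have h1 := (mem_sdiff.mp hx).2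
      exact h1 (mem_union_right _ (mem_biUnion.mpr ⟨Z, h, hx⟩))
    have hZd : ∀ O ∈ F, Disjoint Z O := by
      intro O hO
      rw [disjoint_left]
      intro x hx hxO
      exact (mem_sdiff.mp hx).2 (mem_union_right _ (mem_biUnion.mpr ⟨O, hO, hxO⟩))
    have hVZ : Val I E A (insert Z F) := by
      refine ⟨hA, ?_, ?_, ?_, ?_⟩
      · intro O hO
        rcases mem_insert.mp hO with rfl | h
        · exact hne
        · exact hodd O h
      · intro O hO O' hO' h
        rcases mem_insert.mp hO with rfl | h1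
        · rcases mem_insert.mp hO' with rfl | h2
          · exact absurd rfl h
          · exact hZd O' h2
        · rcases mem_insert.mp hO' with rfl | h2
          · exact (hZd O h1).symm
          · exact hdis O h1 O' h2 h
      · intro O hO
        rcases mem_insert.mp hO with rfl | h
        · intro x hx
          have := mem_sdiff.mp hx
          exact mem_sdiff.mpr ⟨this.1, fun h => this.2 (mem_union_left _ h)⟩
        · exact hsub O h
      · intro O hO x hx y hy hxy
        rcases mem_insert.mp hO with rfl | h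
        · by_cases hyA : y ∈ A
          · exact Or.inr hyA
          · by_cases hyF : y ∈ F.biUnion id
            · exfalso
              obtain ⟨O, hO, hyO⟩ := mem_biUnion.mp hyF
              have hx' := mem_sdiff.mp hx
              rcases hcl O hO y hyO x hx'.1 hxy.symm with h3 | h3
              · exact hx'.2 (mem_union_right _ (mem_biUnion.mpr ⟨O, hO, h3⟩))
              · exact hx'.2 (mem_union_left _ h3)
            · left
              exact mem_sdiff.mpr ⟨hy, by
                rw [mem_union]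
                rintro (h | h)
                · exact hyA h
                · exact hyF h⟩
        · exact hcl O h x hx y hy hxy
    have := hmax A (insert Z F) hVZ
    rw [card_insert_of_notMem hZF] at this
    omega
  obtain ⟨z, hz⟩ := hZeven
  set l := F.card - A.card with hl
  have heven : Even (I.card + l) := ⟨C + F.card + z, by omega⟩
  obtain ⟨W0, m, hWI, hWc, hm⟩ := Run7.h175.tutte_berge (IG E) I l heven (by
    intro A' F' h1 h2 h3 h4 h5
    have := hmax A' F' ⟨h1, h2, h3, h4, h5⟩
    omega)
  -- the transversal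
  let m' : ℕ → ℕ := fun x => if x ∈ I \ W0 then m x else x
  let c : ℕ → ℕ := fun x => sInf ((E x ∩ E (m' x) : Finset ℕ) : Set ℕ)
  have hcmem : ∀ x ∈ I, c x ∈ E x := by
    intro x hx
    have hne : ((E x ∩ E (m' x) : Finset ℕ) : Set ℕ).Nonempty := by
      by_cases h : x ∈ I \ W0
      · obtain ⟨-, -, -, v, hv1, hv2⟩ := hm x h
        refine ⟨v, ?_⟩
        rw [mem_coe, mem_inter]
        refine ⟨hv1, ?_⟩
        simp only [m', if_pos h]
        exact hv2
      · have h1 : (E x).Nonempty := card_pos.mp (by rw [hr x hx]; omega)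
        obtain ⟨v, hv⟩ := h1
        refine ⟨v, ?_⟩
        rw [mem_coe, mem_inter]
        simp only [m', if_neg h]
        exact ⟨hv, hv⟩
    have := Nat.sInf_mem hne
    rw [mem_coe, mem_inter] at this
    exact this.1
  have hcm : ∀ x ∈ I \ W0, c (m x) = c x := by
    intro x hx
    obtain ⟨h1, h2, -⟩ := hm x hx
    simp only [c, m', if_pos hx, if_pos h1, h2]
    rw [inter_comm]
  refine ⟨I.image c, fun i hi => ⟨c i, hcmem i hi, mem_image_of_mem _ hi⟩, ?_⟩
  have hT1 : 2 * ((I \ W0).image c).card ≤ (I \ W0).card := by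
    apply mul_card_image_le_card
    intro b hb
    obtain ⟨x, hx, rfl⟩ := mem_image.mp hb
    obtain ⟨h1, h2, h3⟩ := hm x hx
    have hne : x ≠ m x := h3.1
    have : ({x, m x} : Finset ℕ) ⊆ (I \ W0).filter (fun a => c a = c x) := by
      intro y hy
      rcases mem_insert.mp hy with rfl | hy
      · exact mem_filter.mpr ⟨hx, rfl⟩
      · rw [mem_singleton.mp hy]
        exact mem_filter.mpr ⟨h1, hcm x hx⟩
    calc 2 = ({x, m x} : Finset ℕ).card := (card_pair hne).symm
      _ ≤ _ := card_le_card this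
  have hT2 : (I.image c).card ≤ ((I \ W0).image c).card + W0.card := by
    have : I.image c ⊆ (I \ W0).image c ∪ W0.image c := by
      rw [← image_union, sdiff_union_of_subset hWI]
    exact (card_le_card this).trans ((card_union_le _ _).trans
      (Nat.add_le_add_left card_image_le _))
  have hT3 : (I \ W0).card + W0.card = I.card := card_sdiff_add_card_eq_card hWI
  have hT : 2 * (I.image c).card ≤ I.card + l := by omega
  -- the sum of the degrees
  have hsum : (U I E).card + (DD I E).card = r * I.card := by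
    have h2 := sum_card_bipartiteAbove_eq_sum_card_bipartiteBelow (s := I) (t := U I E)
      (fun i v => v ∈ E i)
    have h3 : ∑ i ∈ I, ((U I E).bipartiteAbove (fun i v => v ∈ E i) i).card = r * I.card := by
      have : ∀ i ∈ I, ((U I E).bipartiteAbove (fun i v => v ∈ E i) i).card = r := by
        intro i hi
        rw [← hr i hi]
        congr 1
        ext v
        exact ⟨fun h => (mem_filter.mp h).2,
          fun h => mem_filter.mpr ⟨mem_biUnion.mpr ⟨i, hi, h⟩, h⟩⟩
      rw [sum_congr rfl this, sum_const, smul_eq_mul, mul_comm]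
    have h4 : ∑ v ∈ U I E, (I.bipartiteBelow (fun i v => v ∈ E i) v).card =
        (U I E).card + (DD I E).card := by
      have : ∀ v ∈ U I E, (I.bipartiteBelow (fun i v => v ∈ E i) v).card =
          1 + if (I.filter (fun i => v ∈ E i)).card = 2 then 1 else 0 := by
        intro v hv
        have e : I.bipartiteBelow (fun i v => v ∈ E i) v = I.filter (fun i => v ∈ E i) := rfl
        rw [e]
        have h5 := hdeg v
        have h6 : 0 < (I.filter (fun i => v ∈ E i)).card := by
          obtain ⟨i, hi, hvi⟩ := mem_biUnion.mp hv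
          exact card_pos.mpr ⟨i, mem_filter.mpr ⟨hi, hvi⟩⟩
        split_ifs with h <;> omega
      rw [sum_congr rfl this, sum_add_distrib, DD, card_filter]
      simp
    omega
  have hcount := count hr hV Z hZ
  rw [← hC] at hcount
  have hIl : I.card = (2 * A.card + 2 * C + Z.card) + l := by omega
  set q := 2 * A.card + 2 * C + Z.card with hq
  have e1 : (r + r / 2) * I.card = r * I.card + r / 2 * I.card := by ring
  have e2 : (r + r / 2) * I.card = (r + r / 2) * q + (r + r / 2) * l := by rw [hIl]; ring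
  have e3 : (r + r / 2) * (2 * (I.image c).card) ≤ (r + r / 2) * (I.card + l) :=
    Nat.mul_le_mul_left _ hT
  have e4 : (r + r / 2) * (2 * (I.image c).card) = 2 * ((r + r / 2) * (I.image c).card) := by ring
  have e5 : (r + r / 2) * (I.card + l) = (r + r / 2) * I.card + (r + r / 2) * l := by ring
  omega

theorem t_CM : S_CM2 → S_CM := by
  intro hCM2 r I E hr2 hr
  induction hn : I.card using Nat.strong_induction_on generalizing I with
  | _ n ih =>
    by_cases hdeg : ∀ v, (I.filter (fun i => v ∈ E i)).card ≤ 2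
    · rw [← hn]
      exact hCM2 r I E hr2 hr hdeg
    · push Not at hdeg
      obtain ⟨v, hv⟩ := hdeg
      have hsplit : (I.filter (fun i => v ∈ E i)).card + (tk v I E).card = I.card :=
        card_filter_add_card_filter_not (s := I) (fun i => v ∈ E i)
      have hvU : v ∈ U I E := by
        obtain ⟨i, hi⟩ := card_pos.mp (show 0 < (I.filter (fun i => v ∈ E i)).card by omega)
        exact mem_biUnion.mpr ⟨i, (mem_filter.mp hi).1, (mem_filter.mp hi).2⟩
      obtain ⟨T, hT, hTc⟩ := ih (tk v I E).card (by omega) (tk v I E)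
        (fun i hi => hr i (mem_filter.mp hi).1) rfl
      have hU := U_tk_lt (E := E) hvU
      refine ⟨insert v T, fun i hi => ?_, ?_⟩
      · by_cases h : v ∈ E i
        · exact ⟨v, h, mem_insert_self _ _⟩
        · obtain ⟨a, ha, haT⟩ := hT i (mem_filter.mpr ⟨hi, h⟩)
          exact ⟨a, ha, mem_insert_of_mem haT⟩
      · have h1 : (insert v T).card ≤ T.card + 1 := card_insert_le _ _
        have h2 : (r + r / 2) * (insert v T).card ≤ (r + r / 2) * (T.card + 1) :=
          Nat.mul_le_mul_left _ h1
        have h3 : (r + r / 2) * (T.card + 1) = (r + r / 2) * T.card + r + r / 2 := by ring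
        obtain ⟨k, hk⟩ : ∃ k, n = (tk v I E).card + 3 + k := ⟨n - (tk v I E).card - 3, by omega⟩
        have h4 : r / 2 * n = r / 2 * (tk v I E).card + 3 * (r / 2) + r / 2 * k := by
          rw [hk]; ring
        have h5 : r ≤ 1 + 2 * (r / 2) := by omega
        omega

theorem t_CUB : S_CUB := by
  intro I E hne h3 hlin hdeg
  obtain ⟨T, hT, hTc⟩ := t_CM2 3 I E (by norm_num) h3 (by
    intro v
    by_cases hv : v ∈ U I E
    · exact (hdeg v hv).le
    · have : I.filter (fun i => v ∈ E i) = ∅ := by
        rw [eq_empty_iff_forall_notMem]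
        intro i hi
        exact hv (mem_biUnion.mpr ⟨i, (mem_filter.mp hi).1, (mem_filter.mp hi).2⟩)
      rw [this]
      simp)
  refine ⟨T, hT, ?_⟩
  -- twice the number of vertices is three times the number of edges
  have hsum : 2 * (U I E).card = 3 * I.card := by
    have h2 := sum_card_bipartiteAbove_eq_sum_card_bipartiteBelow (s := I) (t := U I E)
      (fun i v => v ∈ E i)
    have h4 : ∑ i ∈ I, ((U I E).bipartiteAbove (fun i v => v ∈ E i) i).card = 3 * I.card := by
      have : ∀ i ∈ I, ((U I E).bipartiteAbove (fun i v => v ∈ E i) i).card = 3 := by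
        intro i hi
        rw [← h3 i hi]
        congr 1
        ext v
        exact ⟨fun h => (mem_filter.mp h).2,
          fun h => mem_filter.mpr ⟨mem_biUnion.mpr ⟨i, hi, h⟩, h⟩⟩
      rw [sum_congr rfl this, sum_const, smul_eq_mul, mul_comm]
    have h5 : ∑ v ∈ U I E, (I.bipartiteBelow (fun i v => v ∈ E i) v).card =
        2 * (U I E).card := by
      have : ∀ v ∈ U I E, (I.bipartiteBelow (fun i v => v ∈ E i) v).card = 2 :=
        fun v hv => hdeg v hv
      rw [sum_congr rfl this, sum_const, smul_eq_mul, mul_comm]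
    omega
  have hW : W I E = 6 * I.card := by
    have : ∑ i ∈ I, wt (E i).card = 3 * I.card := by
      rw [sum_congr rfl (fun i hi => by rw [h3 i hi, show wt 3 = 3 from rfl]), sum_const,
        smul_eq_mul, mul_comm]
    unfold W
    omega
  -- at least three edges
  have h3I : 3 ≤ I.card := by
    obtain ⟨i, hi⟩ := hne
    obtain ⟨a, b, c, hab, -, -, habc⟩ := card_eq_three.mp (h3 i hi)
    have ha : a ∈ E i := by rw [habc]; simp
    have hb : b ∈ E i := by rw [habc]; simp
    have hother : ∀ x ∈ E i, ∃ j ∈ I, j ≠ i ∧ x ∈ E j := by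
      intro x hx
      have h1 := hdeg x (mem_biUnion.mpr ⟨i, hi, hx⟩)
      have h2 : 1 < (I.filter (fun i => x ∈ E i)).card := by omega
      obtain ⟨j, hj, hji⟩ := exists_mem_ne h2 i
      exact ⟨j, (mem_filter.mp hj).1, hji, (mem_filter.mp hj).2⟩
    obtain ⟨j, hj, hji, haj⟩ := hother a ha
    obtain ⟨k, hk, hki, hbk⟩ := hother b hb
    have hjk : j ≠ k := by
      rintro rfl
      exact hab (hlin i hi j hj hji.symm a ha haj b hb hbk)
    have : ({i, j, k} : Finset ℕ) ⊆ I := by
      intro x hx
      simp only [mem_insert, mem_singleton] at hx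
      rcases hx with rfl | rfl | rfl <;> assumption
    calc 3 = ({i, j, k} : Finset ℕ).card :=
          (card_eq_three.mpr ⟨i, j, k, hji.symm, hki.symm, hjk, rfl⟩).symm
      _ ≤ I.card := card_le_card this
  rw [hW]
  omega

end Run7.h78.DOM
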